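import Pool.Agent.Helper18.KSZ.NSpec

/-!
# Project KSZ, module N1c: the mean value of the Brun-Hooley weights
-/

set_option autoImplicit false
set_option maxHeartbeats 4000000

open Finset

namespace Pool.Agent.Helper91.KSZ

open Pool.Agent.Helper44 Pool.Agent.Helper96.CPAP Pool.Agent.Helper18.KSZ

theorem sum_powerset_union {U V : Finset ℕ} (hd : Disjoint U V) (f : Finset ℕ → ℝ) :
    ∑ K ∈ (U ∪ V).powerset, f K = ∑ I ∈ U.powerset, ∑ J ∈ V.powerset, f (I ∪ J) := by
  rw [← Finset.sum_product']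
  refine Finset.sum_bij' (fun K _ => (K ∩ U, K ∩ V)) (fun p _ => p.1 ∪ p.2) ?_ ?_ ?_ ?_ ?_
  · intro K _
    rw [Finset.mem_product, Finset.mem_powerset, Finset.mem_powerset]
    exact ⟨Finset.inter_subset_right, Finset.inter_subset_right⟩
  · intro p hp
    rw [Finset.mem_product, Finset.mem_powerset, Finset.mem_powerset] at hp
    rw [Finset.mem_powerset]
    exact Finset.union_subset_union hp.1 hp.2
  · intro K hK
    rw [Finset.mem_powerset] at hK
    rw [← Finset.inter_union_distrib_left]
    exact Finset.inter_eq_left.2 hK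
  · rintro ⟨I, J⟩ hp
    rw [Finset.mem_product, Finset.mem_powerset, Finset.mem_powerset] at hp
    have h1 : J ∩ U = ∅ := by
      rw [← Finset.disjoint_iff_inter_eq_empty]
      exact (Finset.disjoint_of_subset_right hp.2 hd).symm
    have h2 : I ∩ V = ∅ := by
      rw [← Finset.disjoint_iff_inter_eq_empty]
      exact Finset.disjoint_of_subset_left hp.1 hd
    simp only [Finset.union_inter_distrib_right, h1, h2, Finset.union_empty, Finset.empty_union,
      Finset.inter_eq_left.2 hp.1, Finset.inter_eq_left.2 hp.2]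
  · intro K hK
    rw [Finset.mem_powerset] at hK
    rw [← Finset.inter_union_distrib_left, Finset.inter_eq_left.2 hK]

theorem prod_tr {B : ℕ → Finset ℕ} (hB : ∀ i j, i ≠ j → Disjoint (B i) (B j)) (m : ℕ → ℕ)
    (x : ℕ → ℝ) (t : ℕ) : ∏ j ∈ range t, tr (B j) (m j) x =
      ∑ I ∈ ((range t).biUnion B).powerset,
        if ∀ j < t, (I ∩ B j).card ≤ m j then (-1 : ℝ) ^ I.card * ∏ i ∈ I, x i else 0 := by
  induction t with
  | zero => simp
  | succ t ih =>
    have hd : Disjoint ((range t).biUnion B) (B t) := by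
      rw [Finset.disjoint_biUnion_left]
      intro i hi
      exact hB i t (Finset.mem_range.1 hi).ne
    have hU : (range (t + 1)).biUnion B = (range t).biUnion B ∪ B t := by
      rw [Finset.range_add_one, Finset.biUnion_insert, Finset.union_comm]
    rw [hU, sum_powerset_union hd, Finset.prod_range_succ, ih, Finset.sum_mul]
    refine Finset.sum_congr rfl fun I hI => ?_
    rw [Finset.mem_powerset] at hI
    unfold tr
    rw [Finset.mul_sum]
    refine Finset.sum_congr rfl fun J hJ => ?_
    rw [Finset.mem_powerset] at hJ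
    have h1 : Disjoint I J := Finset.disjoint_of_subset_left hI (Finset.disjoint_of_subset_right hJ hd)
    have h2 : ∀ j < t, (I ∪ J) ∩ B j = I ∩ B j := by
      intro j hj
      rw [Finset.union_inter_distrib_right]
      have : J ∩ B j = ∅ := by
        rw [← Finset.disjoint_iff_inter_eq_empty]
        exact Finset.disjoint_of_subset_left hJ (hB t j hj.ne')
      rw [this, Finset.union_empty]
    have h3 : (I ∪ J) ∩ B t = J := by
      rw [Finset.union_inter_distrib_right]
      have : I ∩ B t = ∅ := by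
        rw [← Finset.disjoint_iff_inter_eq_empty]
        exact Finset.disjoint_of_subset_left hI hd
      rw [this, Finset.empty_union, Finset.inter_eq_left.2 hJ]
    have h4 : (∀ j < t + 1, ((I ∪ J) ∩ B j).card ≤ m j) ↔
        (∀ j < t, (I ∩ B j).card ≤ m j) ∧ J.card ≤ m t := by
      constructor
      · intro h
        refine ⟨fun j hj => ?_, ?_⟩
        · rw [← h2 j hj]
          exact h j (by omega)
        · have := h t (by omega)
          rwa [h3] at this
      · rintro ⟨h5, h6⟩ j hj
        rcases Nat.lt_succ_iff_lt_or_eq.1 hj with h7 | rfl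
        · rw [h2 j h7]
          exact h5 j h7
        · rw [h3]
          exact h6
    by_cases hc1 : ∀ j < t, (I ∩ B j).card ≤ m j
    · by_cases hc2 : J.card ≤ m t
      · rw [if_pos hc1, if_pos hc2, if_pos (h4.2 ⟨hc1, hc2⟩), Finset.card_union_of_disjoint h1,
          Finset.prod_union h1, pow_add]
        ring
      · rw [if_pos hc1, if_neg hc2, if_neg (fun h => hc2 (h4.1 h).2), mul_zero]
    · rw [if_neg hc1, if_neg (fun h => hc1 (h4.1 h).1), zero_mul]

/-- the blocks cover the primes up to `w` -/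
theorem biUnion_range {w : ℝ} (hw : 2 ≤ w) :
    (range (nb w)).biUnion (pb Nat.Prime w) = pU Nat.Prime w := by
  rw [← biUnion_pb (fun _ h => h) hw]
  ext q
  simp only [Finset.mem_biUnion, Finset.mem_range, Finset.mem_univ, true_and]
  constructor
  · rintro ⟨j, hj, h⟩
    exact ⟨⟨j, hj⟩, h⟩
  · rintro ⟨j, h⟩
    exact ⟨j, j.2, h⟩

theorem primeFactors_prod {I : Finset ℕ} (hI : ∀ q ∈ I, q.Prime) :
    (∏ q ∈ I, q).primeFactors = I := Nat.primeFactors_prod hI

theorem lam_sum (h : LamBasic) (b : ℕ) {w : ℝ} (hw : 2 ≤ w) :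
    ∑ d ∈ Icc 1 ⌊w ^ ((4 * b + 4 : ℕ) : ℝ)⌋₊, lamE b w d / d =
      ∏ j ∈ range (nb w), tr (pb Nat.Prime w j) (2 * (b + j)) (fun q => 1 / (q : ℝ)) := by
  classical
  have hw0 : (0 : ℝ) ≤ w := by linarith
  rw [prod_tr (fun i j hij => pb_disjoint (by linarith) hij), biUnion_range hw]
  have hP : ∀ I ∈ (pU Nat.Prime w).powerset, ∀ q ∈ I, q.Prime := by
    intro I hI q hq
    exact ((mem_pU (fun _ h => h) hw0).1 (Finset.mem_powerset.1 hI hq)).1
  -- the sum over subsets as a sum over integers
  have e1 : ∑ I ∈ (pU Nat.Prime w).powerset,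
      (if ∀ j < nb w, (I ∩ pb Nat.Prime w j).card ≤ 2 * (b + j) then
        (-1 : ℝ) ^ I.card * ∏ q ∈ I, 1 / (q : ℝ) else 0) =
      ∑ I ∈ (pU Nat.Prime w).powerset, lamE b w (∏ q ∈ I, q) / ((∏ q ∈ I, q : ℕ) : ℝ) := by
    refine Finset.sum_congr rfl fun I hI => ?_
    have hp := hP I hI
    have hpf := primeFactors_prod hp
    have hpos : 0 < ∏ q ∈ I, q := Finset.prod_pos fun q hq => (hp q hq).pos
    have hsm : smooth w (∏ q ∈ I, q) := by
      intro p hp1 hp2
      have : p ∈ I := by
        rw [← hpf]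
        exact Nat.mem_primeFactors.2 ⟨hp1, hp2, hpos.ne'⟩
      exact ((mem_pU (fun _ h => h) hw0).1 (Finset.mem_powerset.1 hI this)).2
    have hmu : (ArithmeticFunction.moebius (∏ q ∈ I, q) : ℝ) = (-1) ^ I.card := by
      rw [ArithmeticFunction.isMultiplicative_moebius.map_prod_of_prime I hp]
      rw [Finset.prod_congr rfl fun q hq => ArithmeticFunction.moebius_apply_prime (hp q hq)]
      simp
    unfold lamE
    by_cases hc : ∀ j < nb w, (I ∩ pb Nat.Prime w j).card ≤ 2 * (b + j)
    · rw [if_pos hc, if_pos ⟨hpos, hsm, by rw [hpf]; exact hc⟩, hmu]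
      push_cast
      rw [Finset.prod_div_distrib]
      simp
      ring
    · rw [if_neg hc, if_neg, zero_div]
      rintro ⟨_, _, h3⟩
      rw [hpf] at h3
      exact hc h3
  rw [e1]
  set g : ℕ → ℝ := fun d => lamE b w d / d with hg
  have hinj : Set.InjOn (fun I : Finset ℕ => ∏ q ∈ I, q) ((pU Nat.Prime w).powerset : Set (Finset ℕ)) := by
    intro I hI J hJ hIJ
    have h1 := primeFactors_prod (hP I (Finset.mem_coe.1 hI))
    have h2 := primeFactors_prod (hP J (Finset.mem_coe.1 hJ))
    simp only at hIJ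
    rw [← h1, ← h2, hIJ]
  have e2 : ∑ I ∈ (pU Nat.Prime w).powerset, lamE b w (∏ q ∈ I, q) / ((∏ q ∈ I, q : ℕ) : ℝ) =
      ∑ d ∈ (pU Nat.Prime w).powerset.image (fun I : Finset ℕ => ∏ q ∈ I, q), g d := by
    rw [Finset.sum_image hinj]
  rw [e2, ← Finset.sum_filter_ne_zero, ← Finset.sum_filter_ne_zero (s := Finset.image _ _)]
  refine Finset.sum_congr ?_ fun _ _ => rfl
  obtain ⟨_, _, hsupp, _, _⟩ := h b w hw
  ext d
  rw [Finset.mem_filter, Finset.mem_filter, Finset.mem_Icc, Finset.mem_image]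
  constructor
  · rintro ⟨⟨hd1, _⟩, hne⟩
    refine ⟨?_, hne⟩
    have hl : lamE b w d ≠ 0 := by
      intro h0
      apply hne
      rw [h0, zero_div]
    obtain ⟨hd0, hsm, _⟩ := hsupp d hl
    have hsq : Squarefree d := by
      rw [← ArithmeticFunction.moebius_ne_zero_iff_squarefree]
      intro h0
      apply hl
      unfold lamE
      split_ifs
      · rw [h0]
        simp
      · rfl
    refine ⟨d.primeFactors, ?_, Nat.prod_primeFactors_of_squarefree hsq⟩
    rw [Finset.mem_powerset]
    intro q hq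
    rw [Nat.mem_primeFactors] at hq
    exact (mem_pU (fun _ h => h) hw0).2 ⟨hq.1, hsm q hq.1 hq.2.1⟩
  · rintro ⟨⟨I, hI, rfl⟩, hne⟩
    refine ⟨?_, hne⟩
    have hl : lamE b w (∏ q ∈ I, q) ≠ 0 := by
      intro h0
      apply hne
      simp only [hg, h0, zero_div]
    obtain ⟨hd0, hsm, hle⟩ := hsupp _ hl
    exact ⟨hd0, Nat.le_floor hle⟩

theorem lamMean (h : LamBasic) : LamMean := by
  classical
  intro b
  obtain ⟨S0, hS0, hS⟩ := sum_inv_pb_le
  obtain ⟨_, C, _, hC, hM⟩ := mertens_prod
  refine ⟨C * Real.exp (Real.exp S0 * Real.exp (2 * S0)), by positivity, ?_⟩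
  intro w hw
  have hw0 : (0 : ℝ) ≤ w := by linarith
  have hw1 : (1 : ℝ) ≤ w := by linarith
  have hlog : 0 < Real.log w := Real.log_pos (by linarith)
  rw [lam_sum h b hw]
  set x : ℕ → ℝ := fun q => 1 / (q : ℝ) with hx
  have hx01 : ∀ j, ∀ i ∈ pb Nat.Prime w j, 0 ≤ x i ∧ x i ≤ 1 / 2 := by
    intro j i hi
    rw [mem_pb] at hi
    have h2 : (2 : ℝ) ≤ i := by exact_mod_cast hi.2.two_le
    refine ⟨by positivity, ?_⟩
    simp only [hx]
    exact one_div_le_one_div_of_le (by norm_num) h2
  have hx1 : ∀ j, ∀ i ∈ pb Nat.Prime w j, 0 ≤ x i ∧ x i ≤ 1 := fun j i hi =>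
    ⟨(hx01 j i hi).1, (hx01 j i hi).2.trans (by norm_num)⟩
  have hsumx : ∀ j, ∑ i ∈ pb Nat.Prime w j, x i ≤ S0 := fun j => hS Nat.Prime (fun _ h => h) w hw j
  set V : ℕ → ℝ := fun j => ∏ i ∈ pb Nat.Prime w j, (1 - x i) with hV
  have hVlow : ∀ j, Real.exp (-(2 * S0)) ≤ V j := by
    intro j
    calc Real.exp (-(2 * S0)) ≤ Real.exp (-∑ i ∈ pb Nat.Prime w j, 2 * x i) := by
          apply Real.exp_le_exp.mpr
          rw [← Finset.mul_sum]
          have := hsumx j
          linarith
      _ = ∏ i ∈ pb Nat.Prime w j, Real.exp (-(2 * x i)) := by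
          rw [← Finset.sum_neg_distrib, Real.exp_sum]
      _ ≤ _ := by
          apply Finset.prod_le_prod
          · intro i _
            exact (Real.exp_pos _).le
          · intro i hi
            have := hx01 j i hi
            exact one_sub_ge_exp this.1 this.2
  have hVpos : ∀ j, 0 < V j := fun j => (Real.exp_pos _).trans_le (hVlow j)
  set k : ℕ → ℕ := fun j => 2 * (b + j) + 1 with hk
  have htr : ∀ j, 0 ≤ tr (pb Nat.Prime w j) (2 * (b + j)) x ∧
      tr (pb Nat.Prime w j) (2 * (b + j)) x ≤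
        V j * Real.exp (S0 ^ k j / (k j).factorial * Real.exp (2 * S0)) := by
    intro j
    constructor
    · exact (hVpos j).le.trans (prod_le_tr_even _ _ (hx1 j) _ (even_two_mul _))
    · have h1 : es (pb Nat.Prime w j) (k j) x ≤ S0 ^ k j / ((k j).factorial : ℝ) := by
        refine (es_le_pow_div_factorial _ _ (fun i hi => (hx01 j i hi).1) _).trans ?_
        apply div_le_div_of_nonneg_right _ (by positivity)
        apply pow_le_pow_left₀ (Finset.sum_nonneg fun i hi => (hx01 j i hi).1) (hsumx j)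
      have h2 := tr_even_le (pb Nat.Prime w j) x (hx1 j) (2 * (b + j)) (even_two_mul _)
      have h3 : (1 : ℝ) ≤ V j * Real.exp (2 * S0) := by
        calc (1 : ℝ) = Real.exp (-(2 * S0)) * Real.exp (2 * S0) := by
              rw [← Real.exp_add]
              simp
          _ ≤ _ := mul_le_mul_of_nonneg_right (hVlow j) (Real.exp_pos _).le
      have h4 : (0 : ℝ) ≤ S0 ^ k j / ((k j).factorial : ℝ) := by positivity
      calc tr (pb Nat.Prime w j) (2 * (b + j)) x ≤ V j + es (pb Nat.Prime w j) (k j) x := h2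
        _ ≤ V j + S0 ^ k j / ((k j).factorial : ℝ) * (V j * Real.exp (2 * S0)) := by
            have := mul_le_mul_of_nonneg_left h3 h4
            linarith
        _ = V j * (S0 ^ k j / ((k j).factorial : ℝ) * Real.exp (2 * S0) + 1) := by ring
        _ ≤ _ := mul_le_mul_of_nonneg_left (Real.add_one_le_exp _) (hVpos j).le
  have hsum : ∑ j ∈ range (nb w), S0 ^ k j / ((k j).factorial : ℝ) * Real.exp (2 * S0) ≤
      Real.exp S0 * Real.exp (2 * S0) := by
    rw [← Finset.sum_mul]
    apply mul_le_mul_of_nonneg_right _ (Real.exp_pos _).le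
    have e1 : ∑ j ∈ range (nb w), S0 ^ k j / ((k j).factorial : ℝ) =
        ∑ n ∈ (range (nb w)).image k, S0 ^ n / (n.factorial : ℝ) := by
      rw [Finset.sum_image]
      intro i _ j _ hij
      simp only [hk] at hij
      omega
    rw [e1]
    have e2 : (range (nb w)).image k ⊆ range (2 * (b + nb w) + 2) := by
      intro n hn
      rw [Finset.mem_image] at hn
      obtain ⟨j, hj, rfl⟩ := hn
      rw [Finset.mem_range] at hj ⊢
      simp only [hk]
      omega
    refine (Finset.sum_le_sum_of_subset_of_nonneg e2 fun _ _ _ => by positivity).trans ?_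
    exact Real.sum_le_exp_of_nonneg hS0.le _
  have hprodV : ∏ j ∈ range (nb w), V j = ∏ q ∈ primesUpTo w, (1 - (1 : ℝ) / q) := by
    have e1 : (range (nb w)).biUnion (pb Nat.Prime w) = primesUpTo w := by
      rw [biUnion_range hw]
      ext q
      rw [mem_pU (fun _ h => h) hw0, mem_primesUpTo hw0]
    rw [← e1, Finset.prod_biUnion]
    intro i _ j _ hij
    exact pb_disjoint hw1 hij
  rw [abs_of_nonneg (Finset.prod_nonneg fun j _ => (htr j).1)]
  calc ∏ j ∈ range (nb w), tr (pb Nat.Prime w j) (2 * (b + j)) x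
      ≤ ∏ j ∈ range (nb w), V j * Real.exp (S0 ^ k j / (k j).factorial * Real.exp (2 * S0)) :=
        Finset.prod_le_prod (fun j _ => (htr j).1) fun j _ => (htr j).2
    _ = (∏ j ∈ range (nb w), V j) *
        Real.exp (∑ j ∈ range (nb w), S0 ^ k j / (k j).factorial * Real.exp (2 * S0)) := by
        rw [Finset.prod_mul_distrib, Real.exp_sum]
    _ ≤ (C / Real.log w) * Real.exp (Real.exp S0 * Real.exp (2 * S0)) := by
        apply mul_le_mul _ (Real.exp_le_exp.2 hsum) (Real.exp_pos _).le (by positivity)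
        rw [hprodV]
        exact (hM w hw).2
    _ = _ := by ring

end Pool.Agent.Helper91.KSZ
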